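import Pool.Agent.H.MP_89478c_gt.A

namespace Pool.Agent.Results.MP_89478c_gt.Warp

open Pool.Agent.H.MP_89478c_gt

theorem result (D : List Slice) (h : Valid [] D) :
    ∃ D', Relation.ReflTransGen InsR2 D D' ∧ Weighted 2 [] D' :=
  main (false, false) D [] h

end Pool.Agent.Results.MP_89478c_gt.Warp
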